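import Pool.Agent.Helper50.CT.Goals

set_option autoImplicit false

/-!
# MP_ccd65d_gt: quotient facts (packet Q0 of helper50)
-/

namespace Pool.Agent.Helper53.CT

open Pool.Agent.Helper50.CT
open Set

theorem dist_orbit {n : ℕ} {X T : Type} [MetricSpace X] [MetricSpace T]
    [AddAction (Fin n → ℤ) X] {π : X → T} (h : IsQuot n X T π) {σ : ℝ}
    (hσ : ∀ (x : X) (k : Fin n → ℤ), k ≠ 0 → σ ≤ dist x (k +ᵥ x)) (y : X) {k k' : Fin n → ℤ}
    (hk : k ≠ k') : σ ≤ dist (k +ᵥ y) (k' +ᵥ y) := by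
  have e : k' +ᵥ y = k +ᵥ ((-k + k') +ᵥ y) := by
    rw [← add_vadd, add_neg_cancel_left]
  rw [e, h.isom]
  apply hσ
  intro h0
  apply hk
  have : k + (-k + k') = k := by rw [h0, add_zero]
  rw [add_neg_cancel_left] at this
  exact this.symm

theorem fin_orbit {n : ℕ} {X T : Type} [MetricSpace X] [ProperSpace X] [MetricSpace T]
    [AddAction (Fin n → ℤ) X] {π : X → T} (h : IsQuot n X T π) (x y : X) (r : ℝ) :
    {k : Fin n → ℤ | dist x (k +ᵥ y) ≤ r}.Finite := by
  obtain ⟨σ, hσ0, hσ⟩ := h.free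
  obtain ⟨t, -, htf, ht⟩ := (isCompact_closedBall x r).finite_cover_balls
    (show 0 < σ / 2 by linarith)
  apply (htf.biUnion (t := fun c => {k : Fin n → ℤ | dist (k +ᵥ y) c < σ / 2}) ?_).subset
  · intro k hk
    have hk' : k +ᵥ y ∈ Metric.closedBall x r := by
      rw [Metric.mem_closedBall, dist_comm]
      exact hk
    have h1 := ht hk'
    simp only [mem_iUnion, Metric.mem_ball, exists_prop] at h1 ⊢
    exact h1
  · intro c _
    apply Set.Subsingleton.finite
    intro k hk k' hk'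
    by_contra hne
    have h1 := dist_orbit h hσ y hne
    have h2 : dist (k +ᵥ y) (k' +ᵥ y) ≤ dist (k +ᵥ y) c + dist (k' +ᵥ y) c :=
      dist_triangle_right _ _ _
    have h3 : dist (k +ᵥ y) c < σ / 2 := hk
    have h4 : dist (k' +ᵥ y) c < σ / 2 := hk'
    linarith

/-- PACKET Q0. -/
theorem goalQ0 : Pool.Agent.Helper50.CT.StmtQ0 := by
  intro n X T _ _ _ _ π h
  have hle : ∀ (x y : X) (k : Fin n → ℤ), dist (π x) (π y) ≤ dist x (k +ᵥ y) := by
    intro x y k
    rw [h.quot]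
    apply ciInf_le
    refine ⟨0, ?_⟩
    rintro _ ⟨k, rfl⟩
    exact dist_nonneg
  refine ⟨h.isom, h.surj, h.free, hle, ?_, ?_, fin_orbit h⟩
  · intro x y
    have hne : {k : Fin n → ℤ | dist x (k +ᵥ y) ≤ dist x y}.Nonempty :=
      ⟨0, show dist x ((0 : Fin n → ℤ) +ᵥ y) ≤ dist x y by rw [zero_vadd]⟩
    obtain ⟨k, hk, hmin⟩ := Set.exists_min_image _ (fun k => dist x (k +ᵥ y))
      (fin_orbit h x y (dist x y)) hne
    refine ⟨k, le_antisymm ?_ (hle x y k)⟩
    rw [h.quot]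
    apply le_ciInf
    intro k'
    by_cases h1 : dist x (k' +ᵥ y) ≤ dist x y
    · exact hmin k' h1
    · push Not at h1
      exact (show dist x (k +ᵥ y) ≤ dist x y from hk).trans h1.le
  · intro k x
    have h1 := hle (k +ᵥ x) x k
    rw [dist_self] at h1
    exact dist_le_zero.1 h1

end Pool.Agent.Helper53.CT
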